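import Pool.Agent.Lib.B5.ColB

set_option autoImplicit false

namespace Pool.Agent.Results.MP_e2a686_co.Collinear

/-- Collinear 5-blocks `o + t j • v`: when two residue classes modulo five hold two of the `t j`
each, the fifth number is not at their midpoint; when a class holds three, the other two numbers
lie in two further classes whose midpoint is not the first class. -/
theorem result : ∀ (t : Fin 5 → ℤ) (o v : ℤ × ℤ) (S : Finset (ℤ × ℤ)),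
    Function.Injective t → v ≠ 0 → (∀ c, c ∈ S ↔ ∃ j, o + t j • v = c) →
    (∀ σ : Equiv.Perm (Fin 5), ¬ (t (σ 1) ≡ t (σ 2) [ZMOD 5] ∧ t (σ 3) ≡ t (σ 4) [ZMOD 5] ∧
      t (σ 1) + t (σ 3) ≡ 2 * t (σ 0) [ZMOD 5])) →
    (∀ σ : Equiv.Perm (Fin 5), t (σ 0) ≡ t (σ 1) [ZMOD 5] → t (σ 0) ≡ t (σ 2) [ZMOD 5] →
      ¬ t (σ 0) ≡ t (σ 3) [ZMOD 5] ∧ ¬ t (σ 3) ≡ t (σ 4) [ZMOD 5] ∧
        ¬ t (σ 3) + t (σ 4) ≡ 2 * t (σ 0) [ZMOD 5]) →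
    ∃ 𝒯 : Set (Set ℂ),
      (∀ t ∈ 𝒯, ∃ g : ℂ ≃ᵢ ℂ,
          t = g '' (⋃ c ∈ S, {p : ℂ | (c.1 : ℝ) ≤ p.re ∧ p.re ≤ (c.1 : ℝ) + 1 ∧
                                      (c.2 : ℝ) ≤ p.im ∧ p.im ≤ (c.2 : ℝ) + 1})) ∧
      ⋃₀ 𝒯 = Set.univ ∧
      𝒯.Pairwise (fun s t => Disjoint (interior s) (interior t)) :=
  fun t o v S ht hv hS h1 h2 =>
    Pool.Agent.Lib.B5.stGEOM S (fun j => o + t j • v) hS
      (Pool.Agent.Lib.B5.stCOL t o v hv (Pool.Agent.Lib.B5.colB t ht h1 h2))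

end Pool.Agent.Results.MP_e2a686_co.Collinear
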