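import Pool.Agent.Lib.B5G.Rel
import Pool.Agent.Lib.B5.COL
import Pool.Agent.Lib.B5.GEOM

set_option autoImplicit false

namespace Pool.Agent.Results.MP_e2a686_co.Generic

open Pool.Agent.Lib.B5 in
/-- 5-blocks whose cell coordinates satisfy no translation invariant linear relation with
coefficients of size at most `10 ^ 8`. -/
theorem result : ∀ S : Finset (ℤ × ℤ), S.card = 5 →
    (∀ c d : ℤ × ℤ → ℤ, (∀ s ∈ S, |c s| ≤ 10 ^ 8 ∧ |d s| ≤ 10 ^ 8) →
      ∑ s ∈ S, c s = 0 → ∑ s ∈ S, d s = 0 → ∑ s ∈ S, (c s * s.1 + d s * s.2) = 0 →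
      ∀ s ∈ S, c s = 0 ∧ d s = 0) →
    ∃ 𝒯 : Set (Set ℂ),
      (∀ t ∈ 𝒯, ∃ g : ℂ ≃ᵢ ℂ,
          t = g '' (⋃ c ∈ S, {p : ℂ | (c.1 : ℝ) ≤ p.re ∧ p.re ≤ (c.1 : ℝ) + 1 ∧
                                      (c.2 : ℝ) ≤ p.im ∧ p.im ≤ (c.2 : ℝ) + 1})) ∧
      ⋃₀ 𝒯 = Set.univ ∧
      𝒯.Pairwise (fun s t => Disjoint (interior s) (interior t)) := by
  intro S hS hrel
  let T : Fin 5 → Z2 := fun j => ((S.equivFinOfCardEq hS).symm j : ℤ × ℤ)
  have hT : Function.Injective T := Subtype.val_injective.comp (Equiv.injective _)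
  have hmem : ∀ c, c ∈ S ↔ ∃ j, T j = c := fun c =>
    ⟨fun h => ⟨S.equivFinOfCardEq hS ⟨c, h⟩, by simp [T]⟩, fun ⟨j, h⟩ => h ▸ Subtype.property _⟩
  refine stGEOM S T hmem ?_
  have hsum : ∀ f : ℤ × ℤ → ℤ, ∑ s ∈ S, f s = ∑ j, f (T j) := fun f => by
    rw [← Finset.sum_coe_sort S, ← (S.equivFinOfCardEq hS).symm.sum_comp]
  have hc : Cov fun j => T j - T 0 := by
    refine G.cov_norel _ _ rfl (sub_self _) fun k l hk hl r => ?_
    let ext : (Fin 4 → ℤ) → ℤ × ℤ → ℤ := fun k =>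
      Function.extend T (Fin.cons (-∑ i, k i) k : Fin 5 → ℤ) 0
    have he : ∀ k j, ext k (T j) = (Fin.cons (-∑ i, k i) k : Fin 5 → ℤ) j := fun k j =>
      hT.extend_apply _ _ j
    have hb : ∀ k : Fin 4 → ℤ, (∀ i, |k i| ≤ 20480000) → ∀ j, |ext k (T j)| ≤ 10 ^ 8 := by
      intro k hk j
      rw [he]
      have h0 := abs_le.1 (hk 0)
      have h1 := abs_le.1 (hk 1)
      have h2 := abs_le.1 (hk 2)
      have h3 := abs_le.1 (hk 3)
      refine Fin.cases ?_ (fun i => ?_) j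
      · rw [Fin.cons_zero, Fin.sum_univ_four, abs_le]
        omega
      · exact (hk i).trans (by norm_num)
    have hz : ∀ k : Fin 4 → ℤ, ∑ s ∈ S, ext k s = 0 := fun k => by
      simp only [hsum, he, Fin.sum_univ_succ (n := 4), Fin.cons_zero, Fin.cons_succ, neg_add_cancel]
    have := hrel (ext k) (ext l) (fun s hs => by
      obtain ⟨j, rfl⟩ := (hmem s).1 hs
      exact ⟨hb k hk j, hb l hl j⟩) (hz k) (hz l) (by
        simp only [hsum, he, Fin.sum_univ_succ (n := 4), Fin.cons_zero, Fin.cons_succ]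
        simp only [Fin.sum_univ_four, Prod.fst_sub, Prod.snd_sub] at r ⊢
        linear_combination r)
    constructor <;> funext i
    · simpa [he] using (this _ ((hmem _).2 ⟨i.succ, rfl⟩)).1
    · simpa [he] using (this _ ((hmem _).2 ⟨i.succ, rfl⟩)).2
  simpa using stSHIFT _ (T 0) hc

end Pool.Agent.Results.MP_e2a686_co.Generic
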