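import Pool.Agent.Lib.B5.NC0
import Pool.Agent.Lib.B5.GEOM

set_option autoImplicit false

namespace Pool.Agent.Results.MP_e2a686_co.NonCollinear

open Pool.Agent.Lib.B5 in
/-- Non-collinear 5-blocks outside five explicit patterns; `M` is five times the lattice spanned
by the differences of the cells. -/
theorem result : ∀ (S : Finset (ℤ × ℤ)) (M : AddSubgroup (ℤ × ℤ)), S.card = 5 →
    M = AddSubgroup.closure {v | ∃ x ∈ S, ∃ y ∈ S, v = (5 : ℤ) • (x - y)} →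
    (∃ x ∈ S, ∃ y ∈ S, ∃ z ∈ S,
      (y.1 - x.1) * (z.2 - x.2) ≠ (y.2 - x.2) * (z.1 - x.1)) →
    (∀ a b c d e : ℤ × ℤ, S = {a, b, c, d, e} →
      ¬ (b - a ∈ M ∧ c - a ∈ M) ∧
      ¬ (b - a ∈ M ∧ c + d + e - (3 : ℤ) • a ∈ M) ∧
      ¬ (b - a ∈ M ∧ d - c ∈ M ∧ ∃ p q : ℤ, Odd (p + q) ∧ p • (b - a) = q • (d - c)) ∧
      ¬ (b - a ∈ M ∧ d + e - (2 : ℤ) • c ∈ M ∧
          ∃ p q : ℤ, Odd p ∧ p • (b - a) = q • (d + e - (2 : ℤ) • c)) ∧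
      ¬ (c - a = (2 : ℤ) • (b - a) ∧ d - e = (3 : ℤ) • (b - a))) →
    ∃ 𝒯 : Set (Set ℂ),
      (∀ t ∈ 𝒯, ∃ g : ℂ ≃ᵢ ℂ,
          t = g '' (⋃ c ∈ S, {p : ℂ | (c.1 : ℝ) ≤ p.re ∧ p.re ≤ (c.1 : ℝ) + 1 ∧
                                      (c.2 : ℝ) ≤ p.im ∧ p.im ≤ (c.2 : ℝ) + 1})) ∧
      ⋃₀ 𝒯 = Set.univ ∧
      𝒯.Pairwise (fun s t => Disjoint (interior s) (interior t)) := by
  intro S M hS hM hnc hex
  let T : Fin 5 → Z2 := fun j => ((S.equivFinOfCardEq hS).symm j : ℤ × ℤ)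
  have hT : Function.Injective T := Subtype.val_injective.comp (Equiv.injective _)
  have hmem : ∀ c, c ∈ S ↔ ∃ j, T j = c := fun c =>
    ⟨fun h => ⟨S.equivFinOfCardEq hS ⟨c, h⟩, by simp [T]⟩, fun ⟨j, h⟩ => h ▸ Subtype.property _⟩
  refine stGEOM S T hmem ?_
  obtain ⟨x, hx, y, hy, z, hz, hd⟩ := hnc
  obtain ⟨i, rfl⟩ := (hmem x).1 hx
  obtain ⟨j, rfl⟩ := (hmem y).1 hy
  obtain ⟨k, rfl⟩ := (hmem z).1 hz
  refine (nc0 T hT ⟨i, j, k, sub_ne_zero.2 hd⟩).resolve_right ?_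
  rintro ⟨σ, hσ, h⟩
  have five : ∀ v, NC.Five T v → v ∈ M := by
    rintro v ⟨w, hw, rfl⟩
    rw [hM]
    refine AddSubgroup.closure_induction (p := fun w _ => (5 : ℤ) • w ∈ _) ?_ ?_ ?_ ?_ hw
    · rintro _ ⟨a, b, rfl⟩
      exact AddSubgroup.subset_closure ⟨T a, (hmem _).2 ⟨a, rfl⟩, T b, (hmem _).2 ⟨b, rfl⟩, rfl⟩
    · rw [smul_zero]; exact zero_mem _
    · intro a b _ _ ha hb
      rw [smul_add]; exact add_mem ha hb
    · intro a _ ha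
      rw [smul_neg]; exact neg_mem ha
  have hsurj := (Finite.injective_iff_bijective.1 hσ).2
  obtain ⟨h1, h2, h3, h4, h5⟩ := hex (T (σ 0)) (T (σ 1)) (T (σ 2)) (T (σ 3)) (T (σ 4)) (by
    ext c
    rw [hmem]
    simp only [Finset.mem_insert, Finset.mem_singleton]
    constructor
    · rintro ⟨a, rfl⟩
      obtain ⟨b, rfl⟩ := hsurj a
      fin_cases b <;> simp
    · rintro (rfl | rfl | rfl | rfl | rfl) <;> exact ⟨_, rfl⟩)
  rcases h with ⟨a, b⟩ | ⟨a, b⟩ | ⟨a, b, m, n, ⟨r, hr⟩, c⟩ | ⟨a, b, m, n, hm, c⟩ | h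
  · exact h1 ⟨five _ a, five _ b⟩
  · refine h2 ⟨five _ a, ?_⟩
    have := five _ b
    rwa [show ∀ a c d e : Z2, c - a + (d - a) + (e - a) = c + d + e - (3 : ℤ) • a from
      fun _ _ _ _ => by module] at this
  · refine h3 ⟨five _ a, five _ b, n - m, n, ⟨n - r - 1, by omega⟩, ?_⟩
    rw [sub_smul, c]
    module
  · rw [show ∀ c d e : Z2, d - c + (e - c) = d + e - (2 : ℤ) • c from
      fun _ _ _ => by module] at b c
    exact h4 ⟨five _ a, five _ b, m, n, hm, c⟩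
  · exact h5 h

end Pool.Agent.Results.MP_e2a686_co.NonCollinear
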